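import Pool.Agent.Helper78.NW.Push
import Pool.Agent.Helper1.NW.Sim

/-!
# NQ: nondeterministic pushdown programs, all computations
-/

set_option autoImplicit false

namespace Pool.Agent.Helper58.NQ

open Pool.Agent.Helper74.NW
open Pool.Agent.Helper78.NW (nc card_perm_cons)

variable {C W Z Q Γ : Type}

/-- From a bound for all nondeterministic programs (at most `Smax` states) with the property `Sd` of all results, to
pushdown programs with this property of all results. -/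
theorem push_gen [Fintype C] [Finite W] [Fintype Q] (P : NPProg C W Z Q Γ) (c0 : C) {b Smax : ℕ}
    (hQ : (2 * Fintype.card Q ^ 2 + 2) ^ (b + 2) ≤ Smax) (Sd : (C → W) → Z → Prop)
    (Φ Ψ : (C → W) → List C → Z → Prop)
    (hΦ : ∀ J l l' z, Φ J l z → l'.Perm (c0 :: l) → Ψ J l' z) (X : ℝ)
    (hP : ∀ J l k z, P.Ends J l k z → Sd J z)
    (hmain : ∀ S ≤ Smax, ∀ P' : NProg C W Z S, (∀ J l z, P'.Ends J l z → Sd J z) →
      (Nat.card {J : C → W // (∃ l z, P'.Ends J l z) ∧ ∀ l z, P'.Ends J l z → Ψ J l z} : ℝ) ≤ X) :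
    (Nat.card {J : C → W // (∃ l k z, P.Ends J l k z ∧ k ≤ 2 ^ b) ∧ ∀ l k z, P.Ends J l k z → Φ J l z} : ℝ) ≤ X := by
  classical
  have : Fintype W := Fintype.ofFinite W
  obtain ⟨S, hS, P', hB⟩ := Pool.Agent.Helper1.NW.sim P c0 b
  refine le_trans ?_ (hmain S (hS.trans hQ) P' ?_)
  · have h : Nat.card {J : C → W // (∃ l k z, P.Ends J l k z ∧ k ≤ 2 ^ b) ∧ ∀ l k z, P.Ends J l k z → Φ J l z} ≤
        Nat.card {J : C → W // (∃ l z, P'.Ends J l z) ∧ ∀ l z, P'.Ends J l z → Ψ J l z} := by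
      rw [nc, nc]
      apply Finset.card_le_card
      intro J hJ
      rw [Finset.mem_filter] at hJ ⊢
      obtain ⟨_, ⟨l0, k0, z0, h0, hk0⟩, hall⟩ := hJ
      refine ⟨Finset.mem_univ _, ?_, ?_⟩
      · obtain ⟨l1, h1, _⟩ := (hB J).1 l0 k0 z0 h0 hk0
        exact ⟨_, _, h1⟩
      · intro l z hl
        obtain ⟨l1, n1, h1, hp⟩ := (hB J).2 l z hl
        exact hΦ J l1 l z (hall l1 n1 z h1) hp
    exact_mod_cast h
  · intro J l z hl
    obtain ⟨l1, n1, h1, _⟩ := (hB J).2 l z hl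
    exact hP J l1 n1 z h1

/-- Q10, programs all of whose results are allowed: at most `T` cells in every computation with a result. -/
theorem push_sound [Fintype C] [Finite W] [Fintype Q] (P : NPProg C W Z Q Γ) (c0 : C) {b Smax T : ℕ}
    (hQ : (2 * Fintype.card Q ^ 2 + 2) ^ (b + 2) ≤ Smax) (Sd : (C → W) → Z → Prop) (X : ℝ)
    (hP : ∀ J l k z, P.Ends J l k z → Sd J z)
    (hmain : ∀ S ≤ Smax, ∀ P' : NProg C W Z S, (∀ J l z, P'.Ends J l z → Sd J z) →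
      (Nat.card {J : C → W // (∃ l z, P'.Ends J l z) ∧
        ∀ l z, P'.Ends J l z → Nat.card {x // x ∈ l} ≤ T + 1} : ℝ) ≤ X) :
    (Nat.card {J : C → W // (∃ l k z, P.Ends J l k z ∧ k ≤ 2 ^ b) ∧
      ∀ l k z, P.Ends J l k z → Nat.card {x // x ∈ l} ≤ T} : ℝ) ≤ X :=
  push_gen P c0 hQ Sd (fun _ l _ => Nat.card {x // x ∈ l} ≤ T) (fun _ l _ => Nat.card {x // x ∈ l} ≤ T + 1)
    (fun _ _ _ _ h hp => card_perm_cons hp h) X hP hmain

/-- The same, for all programs, counting the inputs on which all results are allowed. -/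
theorem push_err [Fintype C] [Finite W] [Fintype Q] (P : NPProg C W Z Q Γ) (c0 : C) {b Smax T : ℕ}
    (hQ : (2 * Fintype.card Q ^ 2 + 2) ^ (b + 2) ≤ Smax) (Sd : (C → W) → Z → Prop) (X : ℝ)
    (hmain : ∀ S ≤ Smax, ∀ P' : NProg C W Z S,
      (Nat.card {J : C → W // (∃ l z, P'.Ends J l z) ∧
        ∀ l z, P'.Ends J l z → Sd J z ∧ Nat.card {x // x ∈ l} ≤ T + 1} : ℝ) ≤ X) :
    (Nat.card {J : C → W // (∃ l k z, P.Ends J l k z ∧ k ≤ 2 ^ b) ∧
      ∀ l k z, P.Ends J l k z → Sd J z ∧ Nat.card {x // x ∈ l} ≤ T} : ℝ) ≤ X :=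
  push_gen P c0 hQ (fun _ _ => True) (fun J l z => Sd J z ∧ Nat.card {x // x ∈ l} ≤ T)
    (fun J l z => Sd J z ∧ Nat.card {x // x ∈ l} ≤ T + 1)
    (fun _ _ _ _ h hp => ⟨h.1, card_perm_cons hp h.2⟩) X (fun _ _ _ _ _ => trivial) (fun S hS P' _ => hmain S hS P')

/-- Decision: `yes J` is the right answer, a result means yes. The wrong inputs of a pushdown program. -/
theorem push_dec [Fintype C] [Finite W] [Fintype Q] (P : NPProg C W Z Q Γ) (c0 : C) {b Smax T : ℕ}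
    (hQ : (2 * Fintype.card Q ^ 2 + 2) ^ (b + 2) ≤ Smax) (yes : (C → W) → Prop) (X : ℝ)
    (hmain : ∀ S ≤ Smax, ∀ P' : NProg C W Z S,
      X ≤ Nat.card {J : C → W // ¬ (((∃ l z, P'.Ends J l z) ↔ yes J) ∧
        ∀ l z, P'.Ends J l z → Nat.card {x // x ∈ l} ≤ T + 1)}) :
    X ≤ Nat.card {J : C → W // ¬ ((yes J → ∃ l k z, P.Ends J l k z ∧ k ≤ 2 ^ b) ∧
      ∀ l k z, P.Ends J l k z → yes J ∧ Nat.card {x // x ∈ l} ≤ T)} := by
  classical
  have : Fintype W := Fintype.ofFinite W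
  obtain ⟨S, hS, P', hB⟩ := Pool.Agent.Helper1.NW.sim P c0 b
  refine le_trans (hmain S (hS.trans hQ) P') ?_
  have h : Nat.card {J : C → W // ¬ (((∃ l z, P'.Ends J l z) ↔ yes J) ∧
        ∀ l z, P'.Ends J l z → Nat.card {x // x ∈ l} ≤ T + 1)} ≤
      Nat.card {J : C → W // ¬ ((yes J → ∃ l k z, P.Ends J l k z ∧ k ≤ 2 ^ b) ∧
      ∀ l k z, P.Ends J l k z → yes J ∧ Nat.card {x // x ∈ l} ≤ T)} := by
    rw [nc, nc]
    apply Finset.card_le_card
    intro J hJ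
    rw [Finset.mem_filter] at hJ ⊢
    refine ⟨Finset.mem_univ _, fun hP => hJ.2 ?_⟩
    obtain ⟨hin, hall⟩ := hP
    refine ⟨⟨?_, ?_⟩, ?_⟩
    · rintro ⟨l, z, hl⟩
      obtain ⟨l1, n1, h1, _⟩ := (hB J).2 l z hl
      exact (hall l1 n1 z h1).1
    · intro hY
      obtain ⟨l0, n0, z0, h0, hn0⟩ := hin hY
      obtain ⟨l1, h1, _⟩ := (hB J).1 l0 n0 z0 h0 hn0
      exact ⟨_, _, h1⟩
    · intro l z hl
      obtain ⟨l1, n1, h1, hp⟩ := (hB J).2 l z hl
      exact card_perm_cons hp (hall l1 n1 z h1).2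
  exact_mod_cast h

end Pool.Agent.Helper58.NQ
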